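import Pool.Agent.W102.TD.Defs

/-!
Project TD (MP_4ac633_lc), part TD-UEX.
-/

set_option autoImplicit false

namespace Pool.Agent.W505.TD

open Pool.Agent.W102.TD

theorem split_last : ∀ w : List Bool, true ∈ w →
    ∃ (w1 : List Bool) (r : ℕ), w = w1 ++ true :: List.replicate r false := by
  intro w
  induction w using List.reverseRecOn with
  | nil => intro h; simp at h
  | append_singleton l x ih =>
    intro h
    cases x with
    | true => exact ⟨l, 0, by simp⟩
    | false =>
      have h1 : true ∈ l := by
        rcases List.mem_append.1 h with h1 | h1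
        · exact h1
        · simp at h1
      obtain ⟨w1, r, hw⟩ := ih h1
      refine ⟨w1, r + 1, ?_⟩
      rw [List.replicate_succ', hw]
      simp

theorem sub_count : ∀ (l : List Bool) (z : ℕ), z ≤ l.count false →
    ∃ u : List Bool, List.Sublist u l ∧ u.count true = l.count true ∧ u.count false = z := by
  intro l
  induction l with
  | nil =>
    intro z hz
    refine ⟨[], List.Sublist.refl _, rfl, ?_⟩
    simp at hz
    simp [hz]
  | cons c l ih =>
    intro z hz
    cases c with
    | true =>
      rw [List.count_cons_of_ne (by decide)] at hz
      obtain ⟨u, h1, h2, h3⟩ := ih z hz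
      refine ⟨true :: u, h1.cons_cons _, ?_, ?_⟩
      · rw [List.count_cons_self, List.count_cons_self, h2]
      · rw [List.count_cons_of_ne (by decide), h3]
    | false =>
      rw [List.count_cons_self] at hz
      cases z with
      | zero =>
        obtain ⟨u, h1, h2, h3⟩ := ih 0 (Nat.zero_le _)
        refine ⟨u, h1.cons _, ?_, h3⟩
        rw [List.count_cons_of_ne (by decide), h2]
      | succ z =>
        obtain ⟨u, h1, h2, h3⟩ := ih z (by omega)
        refine ⟨false :: u, h1.cons_cons _, ?_, ?_⟩
        · rw [List.count_cons_of_ne (by decide), List.count_cons_of_ne (by decide), h2]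
        · rw [List.count_cons_self, h3]

theorem down_append : ∀ (w1 a b : List Bool), down (w1 ++ false :: a) (w1 ++ true :: b) = true := by
  intro w1 a b
  induction w1 with
  | nil => rfl
  | cons c l ih => cases c <;> simpa [down] using ih

theorem mem_U (w u : List Bool) : u ∈ U w ↔
    List.Sublist u w ∧ (List.Sublist (u ++ [true]) w ∨ down u w = true) := by
  unfold U
  rw [Finset.mem_filter, List.mem_toFinset, List.mem_sublists]

theorem UEX : Pool.Agent.W102.TD.UEX := by
  intro w z hw hz
  obtain ⟨w1, r, rfl⟩ := split_last w hw
  have hf : (w1 ++ true :: List.replicate r false).count false = w1.count false + r := by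
    rw [List.count_append, List.count_cons_of_ne (by decide), List.count_replicate_self]
  have ht : (w1 ++ true :: List.replicate r false).count true = w1.count true + 1 := by
    rw [List.count_append, List.count_cons_self, List.count_replicate]
    simp
  rw [hf] at hz
  rw [ht]
  by_cases hc : z ≤ w1.count false
  · obtain ⟨u, h1, h2, h3⟩ := sub_count w1 z hc
    refine ⟨u, (mem_U _ _).2 ⟨h1.trans (List.sublist_append_left _ _), Or.inl ?_⟩, by rw [h2], h3⟩
    exact h1.append ((List.nil_sublist _).cons_cons _)
  · obtain ⟨k, hk⟩ : ∃ k, z = w1.count false + (k + 1) := ⟨z - w1.count false - 1, by omega⟩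
    refine ⟨w1 ++ List.replicate (k + 1) false, (mem_U _ _).2 ⟨?_, Or.inr ?_⟩, ?_, ?_⟩
    · refine (List.Sublist.refl _).append (List.Sublist.cons _ ?_)
      exact List.replicate_sublist_replicate _ |>.2 (by omega)
    · rw [List.replicate_succ]
      exact down_append _ _ _
    · rw [List.count_append, List.count_replicate]
      simp
    · rw [List.count_append, List.count_replicate_self, hk]

end Pool.Agent.W505.TD
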